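import Pool.Agent.H63.TC.Final

open Filter Topology

namespace Pool.Agent.Results.MP_5cc1e3_an.NotContractible

/-- The monic polynomial `λ ^ n + z₁ λ ^ (n - 1) + ⋯ + z_n` with coefficient vector `z`. -/
noncomputable def monicPoly {n : ℕ} (z : Fin n → ℂ) : Polynomial ℂ :=
  Polynomial.X ^ n + ∑ i : Fin n, Polynomial.C (z i) * Polynomial.X ^ (n - 1 - (i : ℕ))

/-- `G_n`: the coefficient vectors of the monic polynomials of degree `n` with nonzero
discriminant. -/
def G (n : ℕ) : Set (Fin n → ℂ) := {z | (monicPoly z).discr ≠ 0}

/-- `F : X → X` is holomorphic for the complex structure pulled back along the covering map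
`p : X → G_n`: it is continuous, and `p ∘ F ∘ s` is complex differentiable at `p x` for every
point `x` and every local section `s` of `p` near `p x` with `s (p x) = x`. -/
def HolAlong {n : ℕ} {X : Type} [TopologicalSpace X] (p : X → G n) (F : X → X) : Prop :=
  Continuous F ∧ ∀ (x : X) (s : (Fin n → ℂ) → X), s (p x) = x → ContinuousAt s (p x) →
    (∀ᶠ z in 𝓝 (p x : Fin n → ℂ), (p (s z) : Fin n → ℂ) = z) →
    DifferentiableAt ℂ (fun z => (p (F (s z)) : Fin n → ℂ)) (p x)

/-- The covering space `X` of `G_n`, with the complex structure pulled back along `p`, is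
holomorphically contractible. -/
def HolContractible {n : ℕ} {X : Type} [TopologicalSpace X] (p : X → G n) : Prop :=
  ∃ (x₀ : X) (F : X × unitInterval → X), Continuous F ∧ (∀ x, F (x, 0) = x) ∧
    (∀ x, F (x, 1) = x₀) ∧ ∀ t, HolAlong p (fun x => F (x, t))

/-- The universal covering of `G_4` is not holomorphically contractible. -/
theorem result (X : Type) [TopologicalSpace X] [SimplyConnectedSpace X] (p : X → G 4)
    (hp : IsCoveringMap p) : ¬ HolContractible p :=
  Pool.Agent.H63.TC.final X p hp

end Pool.Agent.Results.MP_5cc1e3_an.NotContractible
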